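import Pool.Agent.Lib.MP_71630c_lc.Lines

/-! The adversary argument with the closure of a set of variables in place of the nearly
determined vertices. -/

set_option autoImplicit false
set_option linter.unusedSectionVars false

namespace Pool.Agent.Lib.MP_71630c_lc.Ex

open Finset

variable {V : Type} [DecidableEq V] [Fintype V]

section Clos

variable (U : Finset (ℕ × ℕ)) (G : ℕ × ℕ → Finset V) (R : Finset V) (sg : ℕ)

/-- `S` contains every vertex with few free variables outside `K` and the supports of `S`. -/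
def Closed (K : Finset V) (S : Finset (ℕ × ℕ)) : Prop :=
  ∀ v ∈ U, ((G v \ R) \ (K ∪ S.biUnion G)).card ≤ sg → v ∈ S

open Classical in
/-- The least closed set. -/
noncomputable def clos (K : Finset V) : Finset (ℕ × ℕ) :=
  U.filter fun v => ∀ S, Closed U G R sg K S → v ∈ S

variable {U G R sg}

theorem clos_subset (K : Finset V) : clos U G R sg K ⊆ U := by
  classical
  exact filter_subset _ _

theorem mem_clos {K : Finset V} {v : ℕ × ℕ} :
    v ∈ clos U G R sg K ↔ v ∈ U ∧ ∀ S, Closed U G R sg K S → v ∈ S := by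
  simp only [clos, mem_filter]

theorem clos_min {K : Finset V} {S : Finset (ℕ × ℕ)} (h : Closed U G R sg K S) :
    clos U G R sg K ⊆ S := fun _ hv => (mem_clos.1 hv).2 S h

theorem clos_closed (K : Finset V) : Closed U G R sg K (clos U G R sg K) := by
  intro v hv h
  refine mem_clos.2 ⟨hv, fun S hS => hS v hv ((card_le_card ?_).trans h)⟩
  exact sdiff_subset_sdiff subset_rfl
    (union_subset_union_right (biUnion_subset_biUnion_of_subset_left _ (clos_min hS)))

theorem clos_mono {K K' : Finset V} (h : K ⊆ K') : clos U G R sg K ⊆ clos U G R sg K' := by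
  refine clos_min fun v hv h1 => clos_closed K' v hv ((card_le_card ?_).trans h1)
  exact sdiff_subset_sdiff subset_rfl (union_subset_union_left h)

theorem clos_chain (K : Finset V) (m : ℕ) (hm : m ≤ (clos U G R sg K).card) :
    ∃ T ⊆ clos U G R sg K, T.card = m ∧ ((T.biUnion G \ R) \ K).card ≤ sg * m := by
  induction m with
  | zero => exact ⟨∅, empty_subset _, rfl, by simp⟩
  | succ m ih =>
    obtain ⟨T, hT1, hT2, hT3⟩ := ih (by omega)
    have hn : ¬ Closed U G R sg K T := fun h => by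
      have := card_le_card (clos_min h)
      omega
    unfold Closed at hn
    push Not at hn
    obtain ⟨v, hv1, hv2, hv3⟩ := hn
    have hv4 : v ∈ clos U G R sg K := clos_closed K v hv1 ((card_le_card (sdiff_subset_sdiff
      subset_rfl (union_subset_union_right (biUnion_subset_biUnion_of_subset_left _ hT1)))).trans
      hv2)
    refine ⟨insert v T, insert_subset hv4 hT1, by rw [card_insert_of_notMem hv3, hT2], ?_⟩
    have h1 : ((insert v T).biUnion G \ R) \ K ⊆
        ((T.biUnion G \ R) \ K) ∪ ((G v \ R) \ (K ∪ T.biUnion G)) := by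
      intro y hy
      simp only [biUnion_insert, mem_sdiff, mem_union] at hy ⊢
      tauto
    have h2 := (card_le_card h1).trans (card_union_le _ _)
    rw [mul_add, mul_one]
    omega

end Clos

theorem recolor2 {G : ℕ × ℕ → Finset V} (K : Finset V) (des : ℕ × ℕ → Prop) (a : V → Bool)
    (N : Finset (ℕ × ℕ))
    (hp : ∀ D ⊆ N, D.Nonempty → ∃ v ∈ D, ∃ y ∈ G v, y ∉ K ∧ ∀ u ∈ D, u ≠ v → y ∉ G u) :
    ∃ a' : V → Bool, (∀ y ∈ K, a' y = a y) ∧ ∀ v ∈ N, (par (G v) a' = 1 ↔ des v) := by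
  induction N using Finset.strongInduction with
  | H N ih =>
    rcases N.eq_empty_or_nonempty with rfl | hN
    · exact ⟨a, fun _ _ => rfl, by simp⟩
    obtain ⟨v, hv, y, hy1, hy2, hy3⟩ := hp N subset_rfl hN
    obtain ⟨a₁, h1, h2⟩ := ih (N.erase v) (erase_ssubset hv)
      fun D hD => hp D (hD.trans (erase_subset _ _))
    by_cases hc : (par (G v) a₁ = 1 ↔ des v)
    · refine ⟨a₁, h1, fun u hu => ?_⟩
      by_cases huv : u = v
      · rw [huv]; exact hc
      · exact h2 u (mem_erase.2 ⟨huv, hu⟩)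
    refine ⟨Function.update a₁ y (!a₁ y), fun z hz => ?_, fun u hu => ?_⟩
    · rw [Function.update_of_ne (by rintro rfl; exact hy2 hz), h1 z hz]
    · by_cases huv : u = v
      · rw [huv, par_flip a₁ hy1]
        have : ∀ t : ZMod 2, t + 1 = 1 ↔ ¬ t = 1 := by decide
        rw [this]
        tauto
      · rw [par_congr (a' := a₁) fun z hz => Function.update_of_ne
          (by rintro rfl; exact hy3 u hu huv hz) _ _]
        exact h2 u (mem_erase.2 ⟨huv, hu⟩)

/-- All the data of the adversary argument. -/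
structure Setup2 (V : Type) [DecidableEq V] [Fintype V] where
  h : ℕ
  W : ℕ
  sg : ℕ
  s : ℕ
  G : ℕ × ℕ → Finset V
  R : Finset V
  r : V → Bool
  C : Fin (s + 1) → Finset (V × Bool)
  w : Fin (s + 1) → Option (Fin (s + 1) × Fin (s + 1) × V)
  wit : IsWitness (form h W G) s C w
  last : C (Fin.last s) = ∅
  priv : ∀ D ⊆ verts h W, D.Nonempty → D.card < W →
    ∃ v ∈ D, ((G v \ R) ∩ (D.erase v).biUnion G).card < sg
  big : ∀ v ∈ verts h W, sg < (G v \ R).card
  narrow : ∀ (i : Fin (s + 1)) (a : V → Bool), Fals a (C i) → (∀ y ∈ R, a y = r y) →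
    (clos (verts h W) G R sg (vars (C i))).card < W

namespace Setup2

variable (S : Setup2 V)

/-- The vertices whose values the adversary has fixed. -/
noncomputable def near (K : Finset V) : Finset (ℕ × ℕ) := clos (verts S.h S.W) S.G S.R S.sg K

theorem near_mono {K K' : Finset V} (h : K ⊆ K') : S.near K ⊆ S.near K' := clos_mono h

/-- The invariant of the adversary. -/
def Inv (i : Fin (S.s + 1)) (l : ℕ) : Prop :=
  ∃ (a : V → Bool) (P : ℕ → ℕ), Fals a (S.C i) ∧ (∀ y ∈ S.R, a y = S.r y) ∧ P 0 = 0 ∧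
    (∀ n, P (n + 1) = P n ∨ P (n + 1) = n % S.W) ∧
    ∀ v ∈ S.near (vars (S.C i)), (par (S.G v) a = 1 ↔ P v.1 = v.2) ∧ (P v.1 = v.2 → v.1 ≤ l)

/-- A partial path. -/
def Walk (i : Fin (S.s + 1)) (l : List V) (i' : Fin (S.s + 1)) : Prop :=
  (∀ l', IsPath S.w i' l' → IsPath S.w i (l ++ l')) ∧ vars (S.C i') ⊆ vars (S.C i) ∪ l.toFinset

theorem Walk.refl (i : Fin (S.s + 1)) : S.Walk i [] i := ⟨fun _ h => h, by simp⟩

variable {S}

theorem Walk.trans {i j k : Fin (S.s + 1)} {l l' : List V} (h : S.Walk i l j)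
    (h' : S.Walk j l' k) : S.Walk i (l ++ l') k := by
  refine ⟨fun m hm => by rw [List.append_assoc]; exact h.1 _ (h'.1 _ hm), ?_⟩
  rw [List.toFinset_append, ← union_assoc]
  exact h'.2.trans (union_subset_union_left h.2)

theorem Inv.mono {i : Fin (S.s + 1)} {l l' : ℕ} (h : S.Inv i l) (hl : l ≤ l') : S.Inv i l' := by
  obtain ⟨a, P, h1, h2, h3, h4, h5⟩ := h
  exact ⟨a, P, h1, h2, h3, h4, fun v hv => ⟨(h5 v hv).1, fun h => ((h5 v hv).2 h).trans hl⟩⟩

theorem Inv.W_pos {i : Fin (S.s + 1)} {l : ℕ} (h : S.Inv i l) : 0 < S.W := by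
  obtain ⟨a, P, h1, h2, -⟩ := h
  have := S.narrow i a h1 h2
  omega

theorem Inv.not_leaf {i : Fin (S.s + 1)} {l : ℕ} (h : S.Inv i l) (hl : l < S.h) :
    S.C i ∉ form S.h S.W S.G := by
  have hW := h.W_pos
  obtain ⟨a, P, h1, h2, h3, h4, h5⟩ := h
  have hn : ∀ v ∈ verts S.h S.W, S.G v ⊆ vars (S.C i) → v ∈ S.near (vars (S.C i)) := by
    intro v hv hs
    refine clos_closed _ v hv ?_
    rw [sdiff_eq_empty_iff_subset.mpr ((sdiff_subset.trans hs).trans subset_union_left),
      card_empty]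
    exact Nat.zero_le _
  intro hF
  rcases mem_form.mp hF with ⟨v, hv, a₀, ⟨hb, hr⟩, he⟩ | ⟨a₀, hr, he⟩
  · rw [← he] at h1
    have heq := h1.eq_on
    have hvar : vars (S.C i) = supp S.h S.W S.G v := by rw [← he, vars_cl]
    have hv1 : S.G v ⊆ supp S.h S.W S.G v := subset_union_left
    have hv2 := h5 v (hn v hv (hvar ▸ hv1))
    have hP : P v.1 = v.2 := hv2.1.mp (by rw [par_congr fun y hy => heq y (hv1 hy)]; exact hb)
    have hlev := hv2.2 hP
    have hu : (v.1 + 1, P (v.1 + 1)) ∈ ch S.h S.W v :=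
      mem_ch.mpr ⟨by omega, rfl, by rw [← hP]; exact h4 _⟩
    have hu1 : S.G (v.1 + 1, P (v.1 + 1)) ⊆ supp S.h S.W S.G v :=
      (subset_biUnion_of_mem S.G hu).trans subset_union_right
    have hu2 := (h5 _ (hn _ (ch_subset hv hu) (hvar ▸ hu1))).1.mpr rfl
    apply hr _ hu
    rw [← par_congr fun y hy => heq y (hu1 hy)]
    exact hu2
  · rw [← he] at h1
    have heq := h1.eq_on
    have hvar : vars (S.C i) = S.G (0, 0) := by rw [← he, vars_cl]
    have := (h5 (0, 0) (hn _ (mem_verts.mpr ⟨Nat.zero_le _, hW⟩) (hvar ▸ subset_rfl))).1.mpr h3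
    apply hr
    rw [← par_congr heq]
    exact this

theorem Inv.move {i j : Fin (S.s + 1)} {l : ℕ} {x : V} {a : V → Bool} {P : ℕ → ℕ}
    (h2 : ∀ y ∈ S.R, a y = S.r y) (h3 : P 0 = 0)
    (h4 : ∀ n, P (n + 1) = P n ∨ P (n + 1) = n % S.W)
    (h5 : ∀ v ∈ S.near (vars (S.C i)),
      (par (S.G v) a = 1 ↔ P v.1 = v.2) ∧ (P v.1 = v.2 → v.1 ≤ l))
    (hf : Fals a (S.C j)) (hv : vars (S.C j) ⊆ insert x (vars (S.C i))) :
    S.Inv j l ∨ (S.Inv j (l + S.W) ∧ ∃ v ∈ S.near (vars (S.C j)), l < v.1 ∧ v.1 ≤ l + S.W) := by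
  set H := S.near (vars (S.C j)) with hH
  have hcard : H.card < S.W := S.narrow j a hf h2
  have hW : 0 < S.W := by omega
  obtain ⟨c, hc, hcH⟩ : ∃ c < S.W, ∀ v ∈ H, v.2 ≠ c := by
    by_contra hcon
    push Not at hcon
    have : range S.W ⊆ H.image Prod.snd := fun c hc => by
      obtain ⟨v, hv, h⟩ := hcon c (mem_range.mp hc)
      exact mem_image.mpr ⟨v, hv, h⟩
    have h6 := (card_le_card this).trans card_image_le
    rw [card_range] at h6
    omega
  obtain ⟨i₀, hi1, hi2, hi3⟩ : ∃ i₀, l ≤ i₀ ∧ i₀ < l + S.W ∧ i₀ % S.W = c := by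
    have e := Nat.div_add_mod l S.W
    have hm := Nat.mod_lt l hW
    rcases le_or_gt (l % S.W) c with h | h
    · exact ⟨S.W * (l / S.W) + c, by omega, by omega, by
        rw [Nat.mul_add_mod, Nat.mod_eq_of_lt hc]⟩
    · refine ⟨S.W * (l / S.W + 1) + c, ?_, ?_, by rw [Nat.mul_add_mod, Nat.mod_eq_of_lt hc]⟩
      · rw [mul_add, mul_one]; omega
      · rw [mul_add, mul_one]; omega
  set P' : ℕ → ℕ := fun n => if n ≤ i₀ then P n else c with hP'
  have hP0 : P' 0 = 0 := by simp [hP', h3]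
  have hPs : ∀ n, P' (n + 1) = P' n ∨ P' (n + 1) = n % S.W := by
    intro n
    simp only [hP']
    rcases lt_trichotomy n i₀ with h | h | h
    · rw [if_pos (by omega), if_pos h.le]; exact h4 n
    · right; rw [if_neg (by omega), h, hi3]
    · left; rw [if_neg (by omega), if_neg (by omega)]
  have hlev : ∀ v ∈ H, P' v.1 = v.2 → v.1 ≤ i₀ := by
    intro v hv h
    by_contra hcon
    simp only [hP', if_neg hcon] at h
    exact hcH v hv h.symm
  obtain ⟨a', ha1, ha2⟩ := recolor2 (G := S.G)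
    ((S.R ∪ vars (S.C j)) ∪ (S.near (vars (S.C i))).biUnion S.G) (fun v => P' v.1 = v.2) a
    (H \ S.near (vars (S.C i))) (by
      intro D hD hne
      have hDH : D ⊆ H := hD.trans sdiff_subset
      obtain ⟨v, hv1, c4⟩ := S.priv D (hDH.trans (clos_subset _)) hne
        ((card_le_card hDH).trans_lt hcard)
      have hv2 := (mem_sdiff.mp (hD hv1)).2
      have c1 : S.sg < ((S.G v \ S.R) \
          (vars (S.C i) ∪ (S.near (vars (S.C i))).biUnion S.G)).card := by
        by_contra hcon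
        exact hv2 (clos_closed _ v (clos_subset _ (hDH hv1)) (not_lt.mp hcon))
      have c2 : (S.G v \ S.R) \ (vars (S.C i) ∪ (S.near (vars (S.C i))).biUnion S.G) ⊆
          insert x ((S.G v \ S.R) \ (vars (S.C j) ∪ (S.near (vars (S.C i))).biUnion S.G)) := by
        intro y hy
        obtain ⟨hy1, hy2⟩ := mem_sdiff.mp hy
        by_cases hyx : y = x
        · rw [hyx]; exact mem_insert_self _ _
        · refine mem_insert_of_mem (mem_sdiff.mpr ⟨hy1, fun h => ?_⟩)
          rcases mem_union.mp h with h | h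
          · rcases mem_insert.mp (hv h) with h | h
            · exact hyx h
            · exact hy2 (mem_union_left _ h)
          · exact hy2 (mem_union_right _ h)
      have c3 := (card_le_card c2).trans (card_insert_le _ _)
      obtain ⟨y, hy1, hy2⟩ := exists_mem_notMem_of_card_lt_card
        (s := (S.G v \ S.R) ∩ (D.erase v).biUnion S.G)
        (t := (S.G v \ S.R) \ (vars (S.C j) ∪ (S.near (vars (S.C i))).biUnion S.G)) (by omega)
      obtain ⟨hy3, hy4⟩ := mem_sdiff.mp hy1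
      obtain ⟨hy5, hy6⟩ := mem_sdiff.mp hy3
      refine ⟨v, hv1, y, hy5, fun h => ?_, fun u hu huv hyu => hy2 ?_⟩
      · rcases mem_union.mp h with h | h
        · exact (mem_union.mp h).elim hy6 fun h => hy4 (mem_union_left _ h)
        · exact hy4 (mem_union_right _ h)
      · exact mem_inter.mpr ⟨hy3, mem_biUnion.mpr ⟨u, mem_erase.mpr ⟨huv, hu⟩, hyu⟩⟩)
  have hcol : ∀ v ∈ H, (par (S.G v) a' = 1 ↔ P' v.1 = v.2) := by
    intro v hv1
    by_cases hv2 : v ∈ S.near (vars (S.C i))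
    · rw [par_congr (a' := a) fun y hy => ha1 y
        (mem_union_right _ (mem_biUnion.mpr ⟨v, hv2, hy⟩)), (h5 v hv2).1]
      by_cases hle : v.1 ≤ i₀
      · simp only [hP', if_pos hle]
      · constructor
        · intro h; have := (h5 v hv2).2 h; omega
        · intro h; exact absurd (hlev v hv1 h) hle
    · exact ha2 v (mem_sdiff.mpr ⟨hv1, hv2⟩)
  have hf' : Fals a' (S.C j) :=
    hf.congr fun y hy => ha1 y (mem_union_left _ (mem_union_right _ hy))
  have hR' : ∀ y ∈ S.R, a' y = S.r y := fun y hy => by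
    rw [ha1 y (mem_union_left _ (mem_union_left _ hy)), h2 y hy]
  by_cases hnew : ∃ v ∈ H, P' v.1 = v.2 ∧ l < v.1
  · obtain ⟨v, hv1, hv2, hv3⟩ := hnew
    refine Or.inr ⟨⟨a', P', hf', hR', hP0, hPs, fun u hu => ⟨hcol u hu, fun h => ?_⟩⟩,
      v, hv1, hv3, ?_⟩
    · have := hlev u hu h; omega
    · have := hlev v hv1 hv2; omega
  · push Not at hnew
    exact Or.inl ⟨a', P', hf', hR', hP0, hPs, fun u hu => ⟨hcol u hu, hnew u hu⟩⟩

theorem Inv.step {i : Fin (S.s + 1)} {l : ℕ} (h : S.Inv i l) (hl : l < S.h) :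
    ∃ j x, j < i ∧ S.Walk i [x] j ∧ (S.Inv j l ∨
      (S.Inv j (l + S.W) ∧ ∃ v ∈ S.near (vars (S.C j)), l < v.1 ∧ v.1 ≤ l + S.W)) := by
  have hnl := h.not_leaf hl
  obtain ⟨a, P, h1, h2, h3, h4, h5⟩ := h
  rcases hw : S.w i with _ | ⟨j, k, x⟩
  · exact absurd ((S.wit i).1 hw) hnl
  obtain ⟨hj, hk, A, B, -, -, hA, hB, hC⟩ := (S.wit i).2 j k x hw
  have key : ∀ (m : Fin (S.s + 1)) (b : Bool) (E : Finset (V × Bool)), a x ≠ b → E ⊆ S.C i →
      S.C m = insert (x, b) E → Fals a (S.C m) ∧ vars (S.C m) ⊆ insert x (vars (S.C i)) := by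
    intro m b E hb hE hm
    rw [hm]
    constructor
    · intro p hp
      rcases mem_insert.mp hp with rfl | hp
      · exact hb
      · exact h1 p (hE hp)
    · rw [vars, image_insert]
      exact insert_subset_insert _ (image_subset_image hE)
  have hins : insert x (vars (S.C i)) = vars (S.C i) ∪ [x].toFinset := by
    ext y; simp
  cases hax : a x
  · obtain ⟨k1, k2⟩ := key j true A (by simp [hax]) (hC ▸ subset_union_left) hA
    exact ⟨j, x, hj, ⟨fun l' hl' => IsPath.left i j k x l' hw hl', hins ▸ k2⟩,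
      Inv.move h2 h3 h4 h5 k1 k2⟩
  · obtain ⟨k1, k2⟩ := key k false B (by simp [hax]) (hC ▸ subset_union_right) hB
    exact ⟨k, x, hk, ⟨fun l' hl' => IsPath.right i j k x l' hw hl', hins ▸ k2⟩,
      Inv.move h2 h3 h4 h5 k1 k2⟩

theorem Inv.progress {l : ℕ} (hl : l < S.h) (i : Fin (S.s + 1)) (h : S.Inv i l) :
    ∃ j m, S.Walk i m j ∧ S.Inv j (l + S.W) ∧
      ∃ v ∈ S.near (vars (S.C i) ∪ m.toFinset), l < v.1 ∧ v.1 ≤ l + S.W := by
  induction i using WellFoundedLT.induction with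
  | ind i ih =>
    obtain ⟨j, x, hj, hw, h1 | ⟨h1, v, hv, h2⟩⟩ := h.step hl
    · obtain ⟨k, m, hw', h2, v, hv, h3⟩ := ih j hj h1
      refine ⟨k, [x] ++ m, hw.trans hw', h2, v, S.near_mono ?_ hv, h3⟩
      rw [List.toFinset_append, ← union_assoc]
      exact union_subset_union_left hw.2
    · exact ⟨j, [x], hw, h1, v, S.near_mono hw.2 hv, h2⟩

theorem Inv.phase (t : ℕ) {l : ℕ} (hl : l + t * S.W ≤ S.h) {i : Fin (S.s + 1)} (h : S.Inv i l) :
    ∃ j m, S.Walk i m j ∧ S.Inv j (l + t * S.W) ∧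
      ∃ T ⊆ S.near (vars (S.C i) ∪ m.toFinset), T.card = t ∧ ∀ v ∈ T, v.1 ≤ l + t * S.W := by
  have hW := h.W_pos
  induction t with
  | zero => exact ⟨i, [], Walk.refl S i, by simpa using h, ∅, by simp⟩
  | succ t ih =>
    rw [add_mul, one_mul, ← add_assoc] at hl ⊢
    obtain ⟨j, m, hw, h1, T, hT1, hT2, hT3⟩ := ih (by omega)
    obtain ⟨k, m', hw', h2, v, hv1, hv2, hv3⟩ := Inv.progress (by omega) j h1
    refine ⟨k, m ++ m', hw.trans hw', h2, insert v T, ?_, ?_, ?_⟩
    · rw [List.toFinset_append, ← union_assoc]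
      exact insert_subset (S.near_mono (union_subset_union_left hw.2) hv1)
        (hT1.trans (S.near_mono subset_union_left))
    · rw [card_insert_of_notMem (fun h => by have := hT3 v h; omega), hT2]
    · intro u hu
      rcases mem_insert.mp hu with rfl | hu
      · exact hv3
      · have := hT3 u hu; omega

theorem exists_path (i : Fin (S.s + 1)) : ∃ l, IsPath S.w i l := by
  induction i using WellFoundedLT.induction with
  | ind i ih =>
    rcases hw : S.w i with _ | ⟨j, k, x⟩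
    · exact ⟨[], IsPath.leaf i hw⟩
    · obtain ⟨l, hl⟩ := ih j ((S.wit i).2 j k x hw).1
      exact ⟨x :: l, IsPath.left i j k x l hw hl⟩

theorem inv_last : S.Inv (Fin.last S.s) 0 := by
  refine ⟨S.r, fun _ => 0, by rw [S.last]; intro p hp; simp at hp, fun _ _ => rfl, rfl,
    fun _ => Or.inl rfl, fun v hv => ?_⟩
  rw [S.last, vars, image_empty] at hv
  refine absurd (clos_min (S := ∅) (fun u hu h2 => ?_) hv) (notMem_empty v)
  rw [biUnion_empty, union_empty, sdiff_empty] at h2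
  exact absurd (S.big u hu) (not_lt.mpr h2)

/-- The outcome: a path and two families of `t` nearly determined vertices. -/
theorem two_phases (t : ℕ) (ht : 2 * t * S.W ≤ S.h) :
    ∃ (m₁ m₂ m₃ : List V) (j : Fin (S.s + 1)) (a : V → Bool),
      IsPath S.w (Fin.last S.s) (m₁ ++ (m₂ ++ m₃)) ∧ Fals a (S.C j) ∧ (∀ y ∈ S.R, a y = S.r y) ∧
      (∃ T ⊆ S.near m₁.toFinset, T.card = t) ∧
      (∃ T ⊆ S.near (vars (S.C j) ∪ m₂.toFinset), T.card = t) := by
  have e : 2 * t * S.W = t * S.W + t * S.W := by ring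
  obtain ⟨j, m₁, hw₁, h1, T₁, hT1, hT2, -⟩ := Inv.phase t (l := 0) (by omega) (inv_last (S := S))
  obtain ⟨k, m₂, hw₂, -, T₂, hU1, hU2, -⟩ := Inv.phase t (by omega) h1
  obtain ⟨m₃, h3⟩ := exists_path k
  obtain ⟨a, -, ha1, ha2, -⟩ := h1
  refine ⟨m₁, m₂, m₃, j, a, hw₁.1 _ (hw₂.1 _ h3), ha1, ha2, ⟨T₁, ?_, hT2⟩, T₂, hU1, hU2⟩
  rwa [S.last, vars, image_empty, empty_union] at hT1

end Setup2

end Pool.Agent.Lib.MP_71630c_lc.Ex
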