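import Mathlib
import Pool.Agent.Lib.MP_71630c_lc.Defs

/-! Delta-regular resolution refutations. -/

set_option autoImplicit false

namespace Pool.Agent.Lib.MP_71630c_lc.Ex

variable {V : Type} [DecidableEq V]

/-- A `δ`-regular refutation: for some DAG structure, on every path from the final empty clause
at most `δ n` variables are resolved on more than once, `n` being the number of variables. -/
def IsRegular [Fintype V] (δ : ℝ) (F : Finset (Finset (V × Bool))) (s : ℕ)
    (C : Fin (s + 1) → Finset (V × Bool)) : Prop :=
  IsRefutation F s C ∧ ∃ w, IsWitness F s C w ∧ ∀ l, IsPath w (Fin.last s) l →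
    ((Finset.univ.filter fun x : V => 2 ≤ l.count x).card : ℝ) ≤ δ * Fintype.card V

end Pool.Agent.Lib.MP_71630c_lc.Ex
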