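import Mathlib

/-! Existence of bipartite graphs with prescribed expansion, by counting. -/

set_option autoImplicit false
set_option linter.unusedSectionVars false

namespace Pool.Agent.Lib.MP_71630c_lc.Ex

open Finset

variable {ι Pt : Type} [Fintype ι] [DecidableEq ι] [Fintype Pt] [DecidableEq Pt]

theorem card_bad (k : ℕ) (T : Finset ι) (Z : Finset Pt) :
    (univ.filter fun γ : ι → Fin k → Pt => ∀ v ∈ T, ∀ i, γ v i ∈ Z).card =
      Z.card ^ (k * T.card) * Fintype.card Pt ^ (k * (Fintype.card ι - T.card)) := by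
  have h : (univ.filter fun γ : ι → Fin k → Pt => ∀ v ∈ T, ∀ i, γ v i ∈ Z) =
      Fintype.piFinset fun v => if v ∈ T then Fintype.piFinset fun _ : Fin k => Z else univ := by
    ext γ
    simp only [mem_filter, mem_univ, true_and, Fintype.mem_piFinset]
    constructor
    · intro h v
      split_ifs with hv
      · exact Fintype.mem_piFinset.2 (h v hv)
      · exact mem_univ _
    · intro h v hv
      have := h v
      rw [if_pos hv] at this
      exact Fintype.mem_piFinset.1 this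
  have h2 : ∀ v, (if v ∈ T then Fintype.piFinset fun _ : Fin k => Z else univ).card =
      if v ∈ T then Z.card ^ k else Fintype.card Pt ^ k := by
    intro v
    split_ifs
    · rw [Fintype.card_piFinset, prod_const, card_univ, Fintype.card_fin]
    · rw [card_univ, Fintype.card_fun, Fintype.card_fin]
  rw [h, Fintype.card_piFinset]
  simp only [h2]
  rw [prod_ite, prod_const, prod_const, filter_mem_eq_inter, univ_inter, filter_not,
    filter_mem_eq_inter, univ_inter, card_univ_sdiff, ← pow_mul, ← pow_mul]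

theorem exists_graph (k M : ℕ) (J : Finset (ℕ × ℕ)) (hJ : J.card < M)
    (hP : 0 < Fintype.card Pt)
    (h : ∀ x ∈ J, M * ((Fintype.card ι).choose x.1 * ((Fintype.card Pt).choose x.2 *
      x.2 ^ (k * x.1))) ≤ Fintype.card Pt ^ (k * x.1)) :
    ∃ Γ : ι → Finset Pt, (∀ v, (Γ v).card ≤ k) ∧ ∀ x ∈ J, x.2 ≤ Fintype.card Pt →
      ∀ T : Finset ι, T.card = x.1 → x.2 < (T.biUnion Γ).card := by
  by_contra hcon
  push Not at hcon
  set N := Fintype.card ι with hN
  set P := Fintype.card Pt with hPd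
  let bad : ℕ × ℕ → Finset (ι → Fin k → Pt) := fun x =>
    (powersetCard x.1 univ ×ˢ powersetCard x.2 univ).biUnion fun y =>
      univ.filter fun γ : ι → Fin k → Pt => ∀ v ∈ y.1, ∀ i, γ v i ∈ y.2
  have hsub : (univ : Finset (ι → Fin k → Pt)) ⊆ J.biUnion bad := by
    intro γ _
    obtain ⟨x, hx, hxP, T, hT, hle⟩ := hcon (fun v => univ.image (γ v))
      (fun v => card_image_le.trans (by simp))
    obtain ⟨Z, hZ1, -, hZ2⟩ := exists_subsuperset_card_eq (subset_univ _) hle
      (by rwa [card_univ])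
    refine mem_biUnion.2 ⟨x, hx, mem_biUnion.2 ⟨(T, Z), mem_product.2
      ⟨mem_powersetCard_univ.2 hT, mem_powersetCard_univ.2 hZ2⟩,
      mem_filter.2 ⟨mem_univ _, fun v hv i => hZ1 ?_⟩⟩⟩
    exact mem_biUnion.2 ⟨v, hv, mem_image_of_mem _ (mem_univ i)⟩
  have hb : ∀ x ∈ J, M * (bad x).card ≤ P ^ (k * N) := by
    intro x hx
    have h1 : (bad x).card ≤ N.choose x.1 * P.choose x.2 *
        (x.2 ^ (k * x.1) * P ^ (k * (N - x.1))) := by
      refine (card_biUnion_le_card_mul _ _ (x.2 ^ (k * x.1) * P ^ (k * (N - x.1)))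
        fun y hy => ?_).trans ?_
      · obtain ⟨h1, h2⟩ := mem_product.1 hy
        rw [card_bad, mem_powersetCard_univ.1 h1, mem_powersetCard_univ.1 h2]
      · rw [card_product, card_powersetCard, card_powersetCard, card_univ, card_univ]
    rcases lt_or_ge N x.1 with hlt | hge
    · rw [Nat.choose_eq_zero_of_lt hlt, zero_mul, zero_mul] at h1
      rw [Nat.le_zero.1 h1, mul_zero]
      exact Nat.zero_le _
    · have h2 : P ^ (k * N) = P ^ (k * x.1) * P ^ (k * (N - x.1)) := by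
        rw [← pow_add, ← mul_add, Nat.add_sub_cancel' hge]
      calc M * (bad x).card ≤ M * (N.choose x.1 * P.choose x.2 *
            (x.2 ^ (k * x.1) * P ^ (k * (N - x.1)))) := Nat.mul_le_mul_left _ h1
        _ = M * (N.choose x.1 * (P.choose x.2 * x.2 ^ (k * x.1))) * P ^ (k * (N - x.1)) := by ring
        _ ≤ _ := by rw [h2]; exact Nat.mul_le_mul_right _ (h x hx)
  have h3 : (univ : Finset (ι → Fin k → Pt)).card = P ^ (k * N) := by
    rw [card_univ, Fintype.card_fun, Fintype.card_fun, Fintype.card_fin, ← pow_mul]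
  have h4 := (card_le_card hsub).trans card_biUnion_le
  have h5 : M * ∑ x ∈ J, (bad x).card ≤ J.card * P ^ (k * N) := by
    rw [mul_sum, ← smul_eq_mul]
    exact sum_le_card_nsmul _ _ _ hb
  have h6 : 0 < P ^ (k * N) := by positivity
  rw [h3] at h4
  have h7 := (Nat.mul_le_mul_left M h4).trans h5
  exact absurd (Nat.le_of_mul_le_mul_right h7 h6) (not_le.2 hJ)

theorem choose_mul_pow_le (P z : ℕ) : P.choose z * z ^ z ≤ 3 ^ z * P ^ z := by
  have h1 : z ^ z ≤ 3 ^ z * z.factorial := by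
    have a1 := Real.pow_div_factorial_le_exp (z : ℝ) (Nat.cast_nonneg z) z
    have a2 : Real.exp (z : ℝ) ≤ 3 ^ z := by
      rw [← Real.exp_one_pow]
      exact pow_le_pow_left₀ (Real.exp_pos 1).le Real.exp_one_lt_three.le z
    rw [div_le_iff₀ (by positivity)] at a1
    have a3 : (z : ℝ) ^ z ≤ 3 ^ z * z.factorial :=
      a1.trans (mul_le_mul_of_nonneg_right a2 (by positivity))
    exact_mod_cast a3
  have h2 : z.factorial * P.choose z ≤ P ^ z := by
    rw [← Nat.descFactorial_eq_factorial_mul_choose]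
    exact Nat.descFactorial_le_pow P z
  calc P.choose z * z ^ z ≤ P.choose z * (3 ^ z * z.factorial) := Nat.mul_le_mul_left _ h1
    _ = 3 ^ z * (z.factorial * P.choose z) := by ring
    _ ≤ _ := Nat.mul_le_mul_left _ h2

theorem two_mul_pow_le (a : ℕ) (ha : 1 ≤ a) : 2 * a ^ a ≤ (a + 1) ^ a := by
  have key : ∀ n : ℕ, a ^ (n + 1) + (n + 1) * a ^ n ≤ (a + 1) ^ (n + 1) := by
    intro n
    induction n with
    | zero => simp
    | succ n ih =>
      have h1 : (a ^ (n + 1) + (n + 1) * a ^ n) * (a + 1) ≤ (a + 1) ^ (n + 1) * (a + 1) :=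
        Nat.mul_le_mul_right _ ih
      rw [pow_succ (a + 1) (n + 1)]
      refine le_trans ?_ h1
      have h2 : (a ^ (n + 1) + (n + 1) * a ^ n) * (a + 1) =
          a ^ (n + 1 + 1) + (n + 1 + 1) * a ^ (n + 1) + (n + 1) * a ^ n := by ring
      omega
  obtain ⟨n, rfl⟩ : ∃ n, a = n + 1 := ⟨a - 1, by omega⟩
  have h := key n
  rw [← pow_succ'] at h
  omega

theorem two_pow_mul_le {a g m : ℕ} (ha : 1 ≤ a) (h : a * g ≤ m) :
    2 ^ g * a ^ m ≤ (a + 1) ^ m := by
  obtain ⟨d, rfl⟩ := Nat.exists_eq_add_of_le h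
  have h1 : (2 * a ^ a) ^ g ≤ ((a + 1) ^ a) ^ g := Nat.pow_le_pow_left (two_mul_pow_le a ha) g
  rw [mul_pow, ← pow_mul, ← pow_mul] at h1
  rw [pow_add, pow_add, ← mul_assoc]
  exact Nat.mul_le_mul h1 (Nat.pow_le_pow_left (Nat.le_succ a) d)

theorem mul_choose_le {M N b j : ℕ} (hj : 1 ≤ j) (h : M * N ≤ 2 ^ b) :
    M * N.choose j ≤ 2 ^ (b * j) := by
  rcases Nat.eq_zero_or_pos M with rfl | hM
  · simp
  calc M * N.choose j ≤ M ^ j * N ^ j :=
        Nat.mul_le_mul (Nat.le_self_pow (by omega) M) (Nat.choose_le_pow N j)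
    _ = (M * N) ^ j := by rw [mul_pow]
    _ ≤ _ := by rw [pow_mul]; exact Nat.pow_le_pow_left h j

/-- small sets expand almost without loss -/
theorem count_small {M N P a b W j : ℕ} (hj : 1 ≤ j) (hjW : j ≤ W) (h : M * N ≤ 2 ^ b)
    (hP : 2 * (3 ^ a * (a * b * W)) ≤ P) :
    M * (N.choose j * (P.choose (a * b * j) * (a * b * j) ^ ((a + 1) * b * j))) ≤
      P ^ ((a + 1) * b * j) := by
  have e1 : (a + 1) * b * j = a * b * j + b * j := by ring
  have h1 := mul_choose_le hj h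
  have h2 := choose_mul_pow_le P (a * b * j)
  have h3 : (a * b * j) ^ (b * j) ≤ (a * b * W) ^ (b * j) :=
    Nat.pow_le_pow_left (Nat.mul_le_mul_left _ hjW) _
  have h4 : 3 ^ (a * b * j) = (3 ^ a) ^ (b * j) := by rw [← pow_mul, mul_assoc]
  rw [e1, pow_add, pow_add]
  calc M * (N.choose j * (P.choose (a * b * j) *
        ((a * b * j) ^ (a * b * j) * (a * b * j) ^ (b * j))))
      = (M * N.choose j) * (P.choose (a * b * j) * (a * b * j) ^ (a * b * j)) *
        (a * b * j) ^ (b * j) := by ring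
    _ ≤ 2 ^ (b * j) * (3 ^ (a * b * j) * P ^ (a * b * j)) * (a * b * W) ^ (b * j) := by gcongr
    _ = P ^ (a * b * j) * (2 * (3 ^ a * (a * b * W))) ^ (b * j) := by
        rw [h4, mul_pow, mul_pow]; ring
    _ ≤ _ := Nat.mul_le_mul_left _ (Nat.pow_le_pow_left hP _)

/-- large sets cover almost everything -/
theorem count_large {M N q b t k u : ℕ} (hq : 1 ≤ q) (ht : 1 ≤ t) (h : M * N ≤ 2 ^ b)
    (hk : q * (b * t + (q + 1) * u) ≤ k * t) :
    M * (N.choose t * (((q + 1) * u).choose (q * u) * (q * u) ^ (k * t))) ≤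
      ((q + 1) * u) ^ (k * t) := by
  have h1 := mul_choose_le ht h
  have h2 : ((q + 1) * u).choose (q * u) ≤ 2 ^ ((q + 1) * u) := Nat.choose_le_two_pow _ _
  have h3 := two_pow_mul_le hq hk
  rw [mul_pow, mul_pow]
  calc M * (N.choose t * (((q + 1) * u).choose (q * u) * (q ^ (k * t) * u ^ (k * t))))
      = (M * N.choose t) * ((q + 1) * u).choose (q * u) * q ^ (k * t) * u ^ (k * t) := by ring
    _ ≤ 2 ^ (b * t) * 2 ^ ((q + 1) * u) * q ^ (k * t) * u ^ (k * t) := by gcongr
    _ ≤ _ := by rw [← pow_add]; exact Nat.mul_le_mul_right _ h3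

/-- every point is covered -/
theorem count_all {M N P g k : ℕ} (hP : 1 ≤ P) (h : M * (P + 1) ≤ 2 ^ g) (hk : P * g ≤ k * N) :
    M * (N.choose N * ((P + 1).choose P * P ^ (k * N))) ≤ (P + 1) ^ (k * N) := by
  rw [Nat.choose_self, one_mul, Nat.choose_succ_self_right, ← mul_assoc]
  exact (Nat.mul_le_mul_right _ h).trans (two_pow_mul_le hP hk)

/-- in an almost losslessly expanding set some vertex shares few points -/
theorem exists_few_shared {κ : Type} [DecidableEq κ] (Γ : κ → Finset Pt) (D : Finset κ)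
    (z m : ℕ) (h1 : ∀ v ∈ D, (Γ v).card ≤ z + m) (h2 : z * D.card < (D.biUnion Γ).card) :
    ∃ v ∈ D, (Γ v ∩ (D.erase v).biUnion Γ).card < 2 * m := by
  by_contra hcon
  push Not at hcon
  have e1 : ∀ (A : κ → Finset Pt), (∀ v ∈ D, A v ⊆ D.biUnion Γ) →
      ∑ v ∈ D, (A v).card = ∑ y ∈ D.biUnion Γ, (D.filter fun v => y ∈ A v).card := by
    intro A hA
    simp only [card_filter]
    rw [sum_comm]
    refine sum_congr rfl fun v hv => ?_
    rw [← card_filter, filter_mem_eq_inter, inter_eq_right.2 (hA v hv)]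
  have e2 := e1 Γ fun v hv => subset_biUnion_of_mem Γ hv
  have e3 := e1 (fun v => Γ v ∩ (D.erase v).biUnion Γ) fun v hv =>
    inter_subset_left.trans (subset_biUnion_of_mem Γ hv)
  have e4 : ∀ y ∈ D.biUnion Γ, (D.filter fun v => y ∈ Γ v ∩ (D.erase v).biUnion Γ).card + 2 ≤
      2 * (D.filter fun v => y ∈ Γ v).card := by
    intro y hy
    obtain ⟨u, hu, hyu⟩ := mem_biUnion.1 hy
    have a1 : 0 < (D.filter fun v => y ∈ Γ v).card := card_pos.2 ⟨u, mem_filter.2 ⟨hu, hyu⟩⟩
    have a2 : (D.filter fun v => y ∈ Γ v ∩ (D.erase v).biUnion Γ) ⊆ D.filter fun v => y ∈ Γ v :=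
      fun v hv => mem_filter.2 ⟨(mem_filter.1 hv).1, (mem_inter.1 (mem_filter.1 hv).2).1⟩
    have a3 := card_le_card a2
    rcases eq_empty_or_nonempty (D.filter fun v => y ∈ Γ v ∩ (D.erase v).biUnion Γ) with h | ⟨v, hv⟩
    · rw [h, card_empty]; omega
    · obtain ⟨v', hv1, hv2⟩ := mem_biUnion.1 (mem_inter.1 (mem_filter.1 hv).2).2
      have a4 : 1 < (D.filter fun v => y ∈ Γ v).card := one_lt_card.2
        ⟨v, a2 hv, v', mem_filter.2 ⟨mem_of_mem_erase hv1, hv2⟩, (ne_of_mem_erase hv1).symm⟩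
      omega
  have e5 := sum_le_sum e4
  rw [sum_add_distrib, ← mul_sum, ← e2, ← e3, sum_const, smul_eq_mul] at e5
  have e6 : ∑ v ∈ D, (Γ v).card ≤ D.card * (z + m) := by
    rw [← smul_eq_mul]; exact sum_le_card_nsmul _ _ _ h1
  have e7 : D.card * (2 * m) ≤ ∑ v ∈ D, (Γ v ∩ (D.erase v).biUnion Γ).card := by
    rw [← smul_eq_mul]; exact card_nsmul_le_sum _ _ _ hcon
  nlinarith

end Pool.Agent.Lib.MP_71630c_lc.Ex
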