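import Pool.Agent.Results.MP_71630c_lc.Exponential
import Pool.Agent.Lib.MP_71630c_lc.Th.Lower

/-! The exponential separation implies the earlier superpolynomial separation for one half. -/

set_option autoImplicit false

namespace Pool.Agent.Lib.MP_71630c_lc.Ex

open Filter

theorem separation_of_exponential (P : Polynomial ℕ) :
    ∃ (n : ℕ) (F : Finset (Finset (Fin n × Bool))) (s : ℕ)
      (C : Fin (s + 1) → Finset (Fin n × Bool)),
      (∀ x : Fin n, ∃ D ∈ F, ∃ b : Bool, (x, b) ∈ D) ∧ IsRefutation F s C ∧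
      ∀ (s' : ℕ) (C' : Fin (s' + 1) → Finset (Fin n × Bool)), IsHalfRegular F s' C' →
        P.eval (n + F.card + (s + 1)) < s' + 1 := by
  obtain ⟨k, hk⟩ := Th.eval_le_pow' P
  obtain ⟨d, hd⟩ := Pool.Agent.Results.MP_71630c_lc.Exponential.result (1 / 2) (by norm_num)
  have h1 := (tendsto_pow_const_div_const_pow_of_one_lt ((d + 2) * k * d)
    (show (1 : ℝ) < 2 by norm_num)).eventually (gt_mem_nhds (show (0 : ℝ) < 1 by norm_num))
  obtain ⟨m, hm⟩ := eventually_atTop.1 h1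
  obtain ⟨n, hn, F, h2, -, h3, ⟨s, C, h4, h5⟩, h6⟩ := hd (m + 3)
  refine ⟨n, F, s, C, h2, h4, fun s' C' ⟨hR, w, hw, hreg⟩ => ?_⟩
  have a1 := h6 s' C' ⟨hR, w, hw, fun l hl => by
    have b1 : (2 : ℝ) * ((Finset.univ.filter fun x : Fin n => 2 ≤ l.count x).card : ℝ) ≤
        Fintype.card (Fin n) := by exact_mod_cast hreg l hl
    linarith⟩
  have a2 : n ^ ((d + 2) * k * d) < 2 ^ n := by
    have b1 := hm n (by omega)
    rw [div_lt_one (by positivity)] at b1
    exact_mod_cast b1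
  have a3 : n + F.card + (s + 1) ≤ n ^ (d + 2) := by
    have b1 : n ≤ n ^ (d + 1) := Nat.le_self_pow (by omega) n
    have b2 : n ^ d ≤ n ^ (d + 1) := Nat.pow_le_pow_right (by omega) (by omega)
    have b3 : 3 * n ^ (d + 1) ≤ n * n ^ (d + 1) := Nat.mul_le_mul_right _ (by omega)
    rw [pow_succ' n (d + 1)]
    omega
  have a4 := (hk _ (show 2 ≤ n + F.card + (s + 1) by omega)).trans (Nat.pow_le_pow_left a3 k)
  have a5 := Nat.pow_le_pow_left a4 d
  rw [← pow_mul, ← pow_mul, ← mul_assoc] at a5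
  exact lt_of_pow_lt_pow_left₀ d (Nat.zero_le _) ((a5.trans_lt a2).trans_le a1)

end Pool.Agent.Lib.MP_71630c_lc.Ex
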