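import Pool.Agent.Lib.MP_71630c_lc.Th.Fib
import Pool.Agent.Lib.MP_71630c_lc.Ex.Adv
import Pool.Agent.Lib.MP_71630c_lc.Ex.Graph

/-! The lower bound for supports given by an expanding family of point sets. -/

set_option autoImplicit false
set_option linter.unusedSectionVars false

namespace Pool.Agent.Lib.MP_71630c_lc.Ex

open Finset Pool.Agent.Lib.MP_71630c_lc.Th

theorem arith_end {q N u Y₁ Y₂ I : ℕ} (hN : q + 1 = 5 * N) (hu : 1 ≤ u)
    (c1 : q * (q * (3 * u)) ≤ 2 * q * u + Y₁) (c2 : q * (q * (3 * u)) ≤ 2 * q * u + (q * u + Y₂))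
    (c3 : Y₁ + Y₂ ≤ q * ((q + 1) * (3 * u)) + I)
    (c4 : N * I + (q + 1) * ((q + 1) * (3 * u)) ≤ N * ((q + 1) * ((q + 1) * (3 * u)))) :
    False := by
  have a1 : (q + 1) * ((q + 1) * (3 * u)) ≤ I + 14 * ((q + 1) * u) := by nlinarith
  have a2 := Nat.mul_le_mul_left N a1
  have a3 : (q + 1) * ((q + 1) * (3 * u)) = 15 * (N * ((q + 1) * u)) := by
    calc (q + 1) * ((q + 1) * (3 * u)) = (5 * N) * ((q + 1) * (3 * u)) := by rw [← hN]
      _ = _ := by ring
  have a4 : 0 < N * ((q + 1) * u) := Nat.mul_pos (by omega) (by positivity)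
  have a5 : N * (I + 14 * ((q + 1) * u)) = N * I + 14 * (N * ((q + 1) * u)) := by ring
  omega

variable {V : Type} [DecidableEq V] [Fintype V] {Pt : Type} [DecidableEq Pt] [Fintype Pt] {q : ℕ}
  (e : V ≃ Pt × Fin (q + 1)) (Γ : ℕ × ℕ → Finset Pt)

theorem biUnion_fibq (T : Finset (ℕ × ℕ)) :
    (T.biUnion fun v => fibq e (Γ v)) = fibq e (T.biUnion Γ) := by
  ext y
  simp only [mem_biUnion, mem_fibq]

theorem all_occur2 {h W a b : ℕ} (ha : 2 ≤ a) (hW : 3 ≤ W)
    (hA : ∀ v, (Γ v).card ≤ (a + 1) * b)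
    (hB : ∀ D ⊆ verts h W, D.Nonempty → D.card ≤ W → a * b * D.card < (D.biUnion Γ).card)
    (hD : ∀ z, ∃ v ∈ verts h W, z ∈ Γ v) (y : V) :
    ∃ D ∈ form h W fun v => fibq e (Γ v), ∃ c, (y, c) ∈ D := by
  obtain ⟨v, hvv, hy⟩ := hD (e y).1
  have hnot : v ∉ ch h W v := fun h => by have := (mem_ch.mp h).2.1; omega
  have hsub : insert v (ch h W v) ⊆ verts h W := insert_subset hvv (ch_subset hvv)
  have hc : (insert v (ch h W v)).card ≤ W :=
    (card_insert_le _ _).trans (by have := card_ch h W v; omega)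
  obtain ⟨α, -, h2⟩ := recolor2 (G := fun v => fibq e (Γ v)) ∅ (fun u => u = v) (fun _ => false)
    (insert v (ch h W v)) (by
      intro D hD hne
      obtain ⟨u, hu, h1⟩ := exists_few_shared Γ D (a * b) b
        (fun v _ => (hA v).trans (le_of_eq (by ring)))
        (hB D (hD.trans hsub) hne ((card_le_card hD).trans hc))
      have h3 := hB {u} (singleton_subset_iff.2 (hsub (hD hu))) (singleton_nonempty u)
        (by rw [card_singleton]; omega)
      rw [card_singleton, singleton_biUnion, mul_one] at h3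
      obtain ⟨z, hz1, hz2⟩ := exists_mem_notMem_of_card_lt_card
        (s := Γ u ∩ (D.erase u).biUnion Γ) (t := Γ u) (by nlinarith)
      refine ⟨u, hu, e.symm (z, 0), (mem_fibq e).2 (by simpa using hz1), notMem_empty _,
        fun u' hu' hne hz => hz2 (mem_inter.2 ⟨hz1, mem_biUnion.2
          ⟨u', mem_erase.2 ⟨hne, hu'⟩, by simpa using (mem_fibq e).1 hz⟩⟩)⟩)
  refine ⟨cl (supp h W (fun v => fibq e (Γ v)) v) α,
    mem_form.mpr (Or.inl ⟨v, hvv, α, ⟨?_, ?_⟩, rfl⟩), !α y,
    mem_cl.mpr ⟨mem_union_left _ ((mem_fibq e).2 hy), rfl⟩⟩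
  · exact (h2 v (mem_insert_self _ _)).mpr rfl
  · intro u hu h
    exact hnot (((h2 u (mem_insert_of_mem hu)).mp h) ▸ hu)

theorem lower_bound2 {W t a b N : ℕ} (hN : q + 1 = 5 * N) (ha : 3 ≤ a) (hb : 1 ≤ b)
    (hW : 1 ≤ W) (hWt : W ≤ t) (hP : Fintype.card Pt = (q + 1) * (3 * (b * t)))
    (hA : ∀ v, (Γ v).card ≤ (a + 1) * b)
    (hB : ∀ D ⊆ verts (2 * t * W) W, D.Nonempty → D.card ≤ W →
      a * b * D.card < (D.biUnion Γ).card)
    (hC : ∀ T ⊆ verts (2 * t * W) W, T.card = t → q * (3 * (b * t)) < (T.biUnion Γ).card)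
    {s : ℕ} (C : Fin (s + 1) → Finset (V × Bool))
    (w : Fin (s + 1) → Option (Fin (s + 1) × Fin (s + 1) × V)) (hlast : C (Fin.last s) = ∅)
    (hw : IsWitness (form (2 * t * W) W fun v => fibq e (Γ v)) s C w)
    (hreg : ∀ l, IsPath w (Fin.last s) l →
      N * (univ.filter fun x : V => 2 ≤ l.count x).card + Fintype.card V ≤ N * Fintype.card V) :
    (2 * q + 2) ^ (b * W) ≤ (s + 1) * (2 * q + 1) ^ (b * W) := by
  by_contra hcon
  obtain ⟨ρ, hρ⟩ := exists_restrictionq e C (b * W) (not_le.mp hcon)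
  have hq : 1 ≤ q := by omega
  have hvars : ∀ (i : Fin (s + 1)) (α : V → Bool), Fals α (C i) →
      (∀ y ∈ rsetq e ρ, α y = (ρ (e y).1).2) → (vars (C i) \ rsetq e ρ).card ≤ q * (b * W) := by
    intro i α h1 h2
    have h3 := hρ i fun z hz h => h1 z hz (by
      rw [h2 z.1 ((mem_rsetq e).mpr (by rw [h])), h])
    refine (card_le_card (sdiff_subset_sdiff (vars_subset_fibq e _) subset_rfl)).trans ?_
    rw [card_fibq_sdiff]
    exact Nat.mul_le_mul_left _ h3.le
  have hchain : ∀ (K : Finset V) (m : ℕ),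
      m ≤ (clos (verts (2 * t * W) W) (fun v => fibq e (Γ v)) (rsetq e ρ) (2 * q * b) K).card →
      ∃ T ⊆ verts (2 * t * W) W, T.card = m ∧
        q * (T.biUnion Γ).card ≤ 2 * q * b * m + (K \ rsetq e ρ).card := by
    intro K m hm
    obtain ⟨T, hT1, hT2, hT3⟩ := clos_chain K m hm
    refine ⟨T, hT1.trans (clos_subset K), hT2, ?_⟩
    rw [biUnion_fibq] at hT3
    have h1 := card_sdiff_add_card_inter (fibq e (T.biUnion Γ) \ rsetq e ρ) K
    rw [card_fibq_sdiff] at h1
    have h2 : (fibq e (T.biUnion Γ) \ rsetq e ρ) ∩ K ⊆ K \ rsetq e ρ := fun y hy =>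
      mem_sdiff.2 ⟨(mem_inter.1 hy).2, (mem_sdiff.1 (mem_inter.1 hy).1).2⟩
    have h3 := card_le_card h2
    omega
  let S : Setup2 V :=
    { h := 2 * t * W, W := W, sg := 2 * q * b, s := s, G := fun v => fibq e (Γ v),
      R := rsetq e ρ, r := fun y => (ρ (e y).1).2, C := C, w := w, wit := hw, last := hlast
      priv := by
        intro D hD hne hc
        obtain ⟨u, hu, h1⟩ := exists_few_shared Γ D (a * b) b
          (fun v _ => (hA v).trans (le_of_eq (by ring))) (hB D hD hne hc.le)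
        refine ⟨u, hu, ?_⟩
        have h2 : (fibq e (Γ u) \ rsetq e ρ) ∩ ((D.erase u).biUnion fun v => fibq e (Γ v)) =
            fibq e (Γ u ∩ (D.erase u).biUnion Γ) \ rsetq e ρ := by
          rw [biUnion_fibq]
          ext y
          simp only [mem_inter, mem_sdiff, mem_fibq]
          tauto
        rw [h2, card_fibq_sdiff]
        nlinarith
      big := by
        intro v hv
        have h3 := hB {v} (singleton_subset_iff.2 hv) (singleton_nonempty v)
          (by rw [card_singleton]; omega)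
        rw [card_singleton, singleton_biUnion, mul_one] at h3
        rw [card_fibq_sdiff]
        have h4 : 2 * b < (Γ v).card := by nlinarith
        nlinarith
      narrow := by
        intro i α h1 h2
        by_contra h3
        obtain ⟨T, hT1, hT2, hT3⟩ := hchain _ W (not_lt.mp h3)
        have h4 := hB T hT1 (card_pos.1 (by omega)) hT2.le
        have h5 := hvars i α h1 h2
        rw [hT2] at h4
        have h6 : 3 * (b * W) < (T.biUnion Γ).card := by nlinarith
        have h7 := Nat.mul_lt_mul_of_pos_left h6 (show 0 < q by omega)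
        nlinarith }
  obtain ⟨m₁, m₂, m₃, j, α, hpath, ha1, ha2, ⟨T₁, hT1, hT2⟩, T₂, hU1, hU2⟩ :=
    Setup2.two_phases (S := S) t le_rfl
  have red : ∀ K : Finset V, t ≤ (S.near K).card →
      q * (q * (3 * (b * t))) ≤ 2 * q * (b * t) + (K \ rsetq e ρ).card := by
    intro K hK
    obtain ⟨T, h1, h2, h3⟩ := hchain K t hK
    have h4 := Nat.mul_le_mul_left q (hC T h1 h2).le
    rw [mul_assoc (2 * q)] at h3
    omega
  have c1 := red _ (hT2 ▸ card_le_card hT1)
  have c2 := red _ (hU2 ▸ card_le_card hU1)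
  have c3 : ((vars (C j) ∪ m₂.toFinset) \ rsetq e ρ).card ≤
      q * (b * t) + (m₂.toFinset \ rsetq e ρ).card := by
    rw [union_sdiff_distrib]
    refine (card_union_le _ _).trans (Nat.add_le_add_right ?_ _)
    exact (hvars j α ha1 ha2).trans (Nat.mul_le_mul_left _ (Nat.mul_le_mul_left _ hWt))
  have c4 := card_union_add_card_inter (m₁.toFinset \ rsetq e ρ) (m₂.toFinset \ rsetq e ρ)
  have c5 : ((m₁.toFinset \ rsetq e ρ) ∪ (m₂.toFinset \ rsetq e ρ)).card ≤
      q * ((q + 1) * (3 * (b * t))) := by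
    have : (m₁.toFinset \ rsetq e ρ) ∪ (m₂.toFinset \ rsetq e ρ) ⊆ fibq e univ \ rsetq e ρ := by
      rw [← union_sdiff_distrib]
      exact sdiff_subset_sdiff (fun y _ => (mem_fibq e).mpr (mem_univ _)) subset_rfl
    refine (card_le_card this).trans ?_
    rw [card_fibq_sdiff, card_univ, hP]
  have c6 : ((m₁.toFinset \ rsetq e ρ) ∩ (m₂.toFinset \ rsetq e ρ)).card ≤
      (univ.filter fun x : V => 2 ≤ (m₁ ++ (m₂ ++ m₃)).count x).card := by
    apply card_le_card
    intro x hx
    obtain ⟨h1, h2⟩ := mem_inter.mp hx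
    have h3 := List.count_pos_iff.mpr (List.mem_toFinset.mp (mem_sdiff.mp h1).1)
    have h4 := List.count_pos_iff.mpr (List.mem_toFinset.mp (mem_sdiff.mp h2).1)
    refine mem_filter.mpr ⟨mem_univ _, ?_⟩
    rw [List.count_append, List.count_append]
    omega
  have c7 := hreg _ hpath
  have c8 : Fintype.card V = (q + 1) * ((q + 1) * (3 * (b * t))) := by
    rw [Fintype.card_congr e, Fintype.card_prod, hP, Fintype.card_fin, mul_comm]
  rw [c8] at c7
  change q * (q * (3 * (b * t))) ≤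
    2 * q * (b * t) + ((vars (C j) ∪ m₂.toFinset) \ rsetq e ρ).card at c2
  exact arith_end hN (Nat.mul_pos hb (by omega)) c1 (c2.trans (Nat.add_le_add_left c3 _))
    (I := (univ.filter fun x : V => 2 ≤ (m₁ ++ (m₂ ++ m₃)).count x).card) (by omega) c7

/-- The expanding family on the vertices. -/
theorem exists_family {q a b t W g : ℕ} (hq : 1 ≤ q) (hb : 1 ≤ b) (hW : 1 ≤ W) (ht : 1 ≤ t)
    (h1 : 4 * W * ((2 * t * W + 1) * W) ≤ 2 ^ b)
    (h2 : 2 * (3 ^ a * (a * b * W)) ≤ (q + 1) * (3 * (b * t)))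
    (h3 : q * (3 * q + 4) ≤ a + 1)
    (h4 : 4 * W * ((q + 1) * (3 * (b * t))) ≤ 2 ^ g) (h5 : g ≤ W) :
    ∃ Γ : ℕ × ℕ → Finset (Fin ((q + 1) * (3 * (b * t)))), (∀ v, (Γ v).card ≤ (a + 1) * b) ∧
      (∀ D ⊆ verts (2 * t * W) W, D.Nonempty → D.card ≤ W →
        a * b * D.card < (D.biUnion Γ).card) ∧
      (∀ T ⊆ verts (2 * t * W) W, T.card = t → q * (3 * (b * t)) < (T.biUnion Γ).card) ∧
      ∀ z, ∃ v ∈ verts (2 * t * W) W, z ∈ Γ v := by
  have hu : 1 ≤ b * t := Nat.mul_pos hb ht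
  obtain ⟨P, hP⟩ : ∃ P, (q + 1) * (3 * (b * t)) = P + 1 :=
    ⟨(q + 1) * (3 * (b * t)) - 1, by have : 0 < (q + 1) * (3 * (b * t)) := by positivity
                                     omega⟩
  have hNv := (Fintype.card_coe (verts (2 * t * W) W)).trans (card_verts _ _)
  obtain ⟨Γ, g1, g2⟩ := exists_graph (ι := {v : ℕ × ℕ // v ∈ verts (2 * t * W) W})
    (Pt := Fin ((q + 1) * (3 * (b * t)))) ((a + 1) * b) (4 * W)
    (insert ((2 * t * W + 1) * W, P) (insert (t, q * (3 * (b * t)))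
      ((Icc 1 W).image fun j => (j, a * b * j))))
    (by
      have a1 := card_insert_le ((2 * t * W + 1) * W, P) (insert (t, q * (3 * (b * t)))
        ((Icc 1 W).image fun j => (j, a * b * j)))
      have a2 := card_insert_le (t, q * (3 * (b * t))) ((Icc 1 W).image fun j => (j, a * b * j))
      have a3 : ((Icc 1 W).image fun j => (j, a * b * j)).card ≤ W :=
        card_image_le.trans (by simp)
      omega)
    (by rw [Fintype.card_fin]; omega)
    (by
      intro x hx
      rw [hNv, Fintype.card_fin]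
      rcases mem_insert.1 hx with rfl | hx
      · rw [hP]
        refine count_all (g := g) (by nlinarith) (hP ▸ h4) ?_
        have a1 : (q + 1) * 3 ≤ a + 1 := by nlinarith
        calc P * g ≤ ((q + 1) * 3) * (b * t) * W := by
              refine Nat.mul_le_mul ?_ h5
              rw [mul_assoc]; omega
          _ ≤ (a + 1) * (b * t) * W := by gcongr
          _ = (a + 1) * b * (t * W) := by ring
          _ ≤ _ := Nat.mul_le_mul_left _ (Nat.mul_le_mul_right _ (by nlinarith))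
      rcases mem_insert.1 hx with rfl | hx
      · refine count_large hq ht h1 ?_
        calc q * (b * t + (q + 1) * (3 * (b * t))) = q * (3 * q + 4) * (b * t) := by ring
          _ ≤ (a + 1) * (b * t) := Nat.mul_le_mul_right _ h3
          _ = _ := by ring
      · obtain ⟨j, hj, rfl⟩ := mem_image.1 hx
        exact count_small (mem_Icc.1 hj).1 (mem_Icc.1 hj).2 h1 h2)
  let Γ' : ℕ × ℕ → Finset (Fin ((q + 1) * (3 * (b * t)))) := fun v =>
    if hv : v ∈ verts (2 * t * W) W then Γ ⟨v, hv⟩ else ∅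
  have key : ∀ T ⊆ verts (2 * t * W) W, ∃ T' : Finset {v : ℕ × ℕ // v ∈ verts (2 * t * W) W},
      T'.card = T.card ∧ T'.biUnion Γ ⊆ T.biUnion Γ' := by
    intro T hT
    refine ⟨T.subtype _, by rw [card_subtype, filter_true_of_mem hT], fun z hz => ?_⟩
    obtain ⟨v, hv, hz⟩ := mem_biUnion.1 hz
    exact mem_biUnion.2 ⟨v.1, mem_subtype.1 hv, by simpa only [Γ', dif_pos v.2] using hz⟩
  rw [Fintype.card_fin] at g2
  refine ⟨Γ', fun v => ?_, fun D hD hne hc => ?_, fun T hT hc => ?_, fun z => ?_⟩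
  · simp only [Γ']
    split_ifs
    · exact g1 _
    · simp
  · obtain ⟨T', k1, k2⟩ := key D hD
    refine (g2 (D.card, a * b * D.card) (mem_insert_of_mem (mem_insert_of_mem
      (mem_image.2 ⟨_, mem_Icc.2 ⟨card_pos.2 hne, hc⟩, rfl⟩))) ?_ T' k1).trans_le (card_le_card k2)
    have a1 : a * b * D.card ≤ a * b * W := Nat.mul_le_mul_left _ hc
    have a2 : a * b * W ≤ 3 ^ a * (a * b * W) := Nat.le_mul_of_pos_left _ (by positivity)
    simp only
    omega
  · obtain ⟨T', k1, k2⟩ := key T hT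
    exact (g2 (t, q * (3 * (b * t))) (mem_insert_of_mem (mem_insert_self _ _))
      (Nat.mul_le_mul_right _ (Nat.le_succ q)) T' (k1.trans hc)).trans_le (card_le_card k2)
  · obtain ⟨T', k1, k2⟩ := key _ subset_rfl
    have a1 := (g2 (_, P) (mem_insert_self _ _) (by simp only; omega) T'
      (k1.trans (card_verts _ _))).trans_le (card_le_card k2)
    have a2 : (verts (2 * t * W) W).biUnion Γ' = univ :=
      eq_univ_of_card _ (le_antisymm (card_le_univ _) (by rw [Fintype.card_fin]; exact hP.le.trans a1))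
    exact mem_biUnion.1 (a2 ▸ mem_univ z)

end Pool.Agent.Lib.MP_71630c_lc.Ex
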