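import Pool.Agent.Lib.MP_71630c_lc.Ex.Defs
import Pool.Agent.Lib.MP_71630c_lc.Ex.Lower

/-! Choice of the parameters: the exponential separation. -/

set_option autoImplicit false

namespace Pool.Agent.Lib.MP_71630c_lc.Ex

open Finset Pool.Agent.Lib.MP_71630c_lc.Th

theorem five_mul_le {r : ℕ} (hr : 5 ≤ r) : 5 * r ≤ 2 ^ r := by
  induction r, hr using Nat.le_induction with
  | base => norm_num
  | succ r hr ih => rw [pow_succ]; omega

theorem width_form {V : Type} [DecidableEq V] [Fintype V] {h W L : ℕ} {G : ℕ × ℕ → Finset V}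
    (hL : ∀ v, (G v).card ≤ L) : ∀ D ∈ form h W G, D.card ≤ 3 * L := by
  intro D hD
  rcases mem_form.1 hD with ⟨v, -, α, -, rfl⟩ | ⟨α, -, rfl⟩
  · exact card_image_le.trans (card_supp hL v)
  · exact card_image_le.trans ((hL _).trans (by omega))

theorem sep_nat (N : ℕ) (hN : 1 ≤ N) : ∃ d : ℕ, ∀ m : ℕ, ∃ n ≥ m,
    ∃ F : Finset (Finset (Fin n × Bool)),
      (∀ x : Fin n, ∃ D ∈ F, ∃ b : Bool, (x, b) ∈ D) ∧ (∀ D ∈ F, D.card ≤ d * Nat.log 2 n) ∧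
      F.card ≤ n ^ d ∧ (∃ s C, IsRefutation F s C ∧ s + 1 ≤ n ^ d) ∧
      ∀ (s : ℕ) (C : Fin (s + 1) → Finset (Fin n × Bool))
        (w : Fin (s + 1) → Option (Fin (s + 1) × Fin (s + 1) × Fin n)),
        C (Fin.last s) = ∅ → IsWitness F s C w →
        (∀ l, IsPath w (Fin.last s) l →
          N * (univ.filter fun x : Fin n => 2 ≤ l.count x).card + n ≤ N * n) →
        2 ^ n ≤ (s + 1) ^ d := by
  obtain ⟨q, hq⟩ : ∃ q, q + 1 = 5 * N := ⟨5 * N - 1, by omega⟩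
  have hq1 : 1 ≤ q := by omega
  obtain ⟨a, ha⟩ : ∃ a, a = q * (3 * q + 4) := ⟨_, rfl⟩
  have ha3 : 3 ≤ a := by rw [ha]; nlinarith
  obtain ⟨c, hc⟩ : ∃ c, c = 3 ^ a * a := ⟨_, rfl⟩
  have hc1 : 1 ≤ c := by rw [hc]; exact Nat.mul_pos (by positivity) (by omega)
  obtain ⟨E, hE⟩ : ∃ E, E = (q + 1) * ((a + 1) * 5) := ⟨_, rfl⟩
  obtain ⟨B, hB⟩ : ∃ B, B = (q + 1) * ((q + 1) * (3 * c)) := ⟨_, rfl⟩
  refine ⟨7 + 6 * E + (2 * q + 1) * B, fun m => ?_⟩
  obtain ⟨r, hr⟩ : ∃ r, r = m + 5 + 12 * ((q + 1) * c) := ⟨_, rfl⟩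
  obtain ⟨W, hW⟩ : ∃ W, W = 2 ^ r := ⟨_, rfl⟩
  obtain ⟨t, ht⟩ : ∃ t, t = c * W := ⟨_, rfl⟩
  obtain ⟨b, hb⟩ : ∃ b, b = 5 * r := ⟨_, rfl⟩
  have hr5 : 5 ≤ r := by omega
  have hbW : b ≤ W := by rw [hb, hW]; exact five_mul_le hr5
  have hAW : 12 * ((q + 1) * c) ≤ W := by omega
  have hcW : 12 * c ≤ W := le_trans (by nlinarith) hAW
  have hWt : W ≤ t := by rw [ht]; exact Nat.le_mul_of_pos_left _ hc1
  have hW1 : 1 ≤ W := by omega
  have h1 : 4 * W * ((2 * t * W + 1) * W) ≤ 2 ^ b := by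
    have a1 : 1 ≤ t * W := Nat.mul_pos (by omega) hW1
    calc 4 * W * ((2 * t * W + 1) * W) ≤ 4 * W * ((3 * (t * W)) * W) := by
          gcongr; rw [mul_assoc]; omega
      _ = (12 * c) * W ^ 4 := by rw [ht]; ring
      _ ≤ W * W ^ 4 := Nat.mul_le_mul_right _ hcW
      _ = 2 ^ b := by rw [← pow_succ', hW, ← pow_mul, hb, mul_comm]
  obtain ⟨Γ, hA, hB', hC, hD⟩ := exists_family (q := q) (a := a) (b := b) (t := t) (W := W)
    (g := 4 * r) hq1 (by omega) hW1 (by omega) h1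
    (by
      calc 2 * (3 ^ a * (a * b * W)) = 2 * (b * t) := by rw [ht, hc]; ring
        _ ≤ 3 * (b * t) := by omega
        _ ≤ _ := Nat.le_mul_of_pos_left _ (by omega))
    (by omega)
    (by
      calc 4 * W * ((q + 1) * (3 * (b * t))) = (12 * ((q + 1) * c)) * b * W ^ 2 := by
            rw [ht]; ring
        _ ≤ W * W * W ^ 2 := by gcongr
        _ = W ^ 4 := by ring
        _ = 2 ^ (4 * r) := by rw [hW, ← pow_mul, mul_comm])
    (by omega)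
  obtain ⟨n, hn⟩ : ∃ n, n = (q + 1) * ((q + 1) * (3 * (b * t))) := ⟨_, rfl⟩
  have hnB : n = (b * W) * B := by rw [hn, hB, ht]; ring
  have hWn : W ≤ n := by
    rw [hnB]
    refine (Nat.le_mul_of_pos_left W (show 0 < b by omega)).trans (Nat.le_mul_of_pos_right _ ?_)
    rw [hB]; positivity
  let e : Fin n ≃ Fin ((q + 1) * (3 * (b * t))) × Fin (q + 1) :=
    (Fintype.equivFinOfCardEq (by
      rw [Fintype.card_prod, Fintype.card_fin, Fintype.card_fin, hn, mul_comm])).symm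
  have hL : ∀ v, (fibq e (Γ v)).card ≤ E * r := fun v => by
    rw [card_fibq]
    refine (Nat.mul_le_mul_left _ (hA v)).trans (le_of_eq ?_)
    rw [hE, hb]; ring
  obtain ⟨s, C, hs, hCr⟩ := short_refutation (h := 2 * t * W) (W := W) hW1 hL
  have h2 := card_form (h := 2 * t * W) (W := W) hL
  have hNv : (2 * t * W + 1) * W + 1 ≤ 2 ^ (5 * r) := by
    rw [← hb]
    have a1 : 1 ≤ (2 * t * W + 1) * W := Nat.mul_pos (by omega) hW1
    have a2 : 2 * ((2 * t * W + 1) * W) ≤ 4 * W * ((2 * t * W + 1) * W) :=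
      Nat.mul_le_mul_right _ (by omega)
    omega
  obtain ⟨Q, hQ⟩ : ∃ Q, Q = 2 ^ (5 * r) * 2 ^ (6 * (E * r)) := ⟨_, rfl⟩
  have q1 : (form (2 * t * W) W fun v => fibq e (Γ v)).card ≤ Q :=
    hQ ▸ h2.trans (Nat.mul_le_mul_right _ hNv)
  have q2 : (2 * t * W + 1) * (W * (2 ^ (2 * (E * r)) * 2 ^ (3 * (E * r)))) ≤ Q := by
    rw [← mul_assoc, hQ, ← pow_add]
    exact Nat.mul_le_mul (by omega) (Nat.pow_le_pow_right (by norm_num) (by omega))
  have q3 : 2 ^ (E * r) ≤ Q := by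
    rw [hQ, ← pow_add]
    exact Nat.pow_le_pow_right (by norm_num) (by omega)
  have q4 : 4 * Q ≤ n ^ (7 + 6 * E + (2 * q + 1) * B) := by
    calc 4 * Q = 2 ^ (2 + 5 * r + 6 * (E * r)) := by rw [hQ, pow_add, pow_add]; ring
      _ ≤ 2 ^ (r * (7 + 6 * E + (2 * q + 1) * B)) :=
          Nat.pow_le_pow_right (by norm_num) (by
            have : r * (7 + 6 * E + (2 * q + 1) * B) =
              7 * r + 6 * (E * r) + r * ((2 * q + 1) * B) := by ring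
            omega)
      _ ≤ _ := by rw [pow_mul, ← hW]; exact Nat.pow_le_pow_left hWn _
  have hlog : r ≤ Nat.log 2 n := Nat.le_log_of_pow_le (by norm_num) (hW ▸ hWn)
  refine ⟨n, by omega, form (2 * t * W) W fun v => fibq e (Γ v),
    all_occur2 e Γ (by omega) (by omega) hA hB' hD, fun D hD => ?_, by omega,
    ⟨s, C, hCr, by omega⟩, fun s' C' w hl hw hreg => ?_⟩
  · refine (width_form hL D hD).trans ?_
    rw [← mul_assoc]
    exact Nat.mul_le_mul (by omega) hlog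
  · have g1 := lower_bound2 e Γ hq ha3 (by omega) hW1 hWt (Fintype.card_fin _) hA hB' hC C' w hl hw
      (by simpa using hreg)
    have g2 := Nat.pow_le_pow_left g1 (2 * q + 1)
    have g3 := two_pow_mul_le (a := 2 * q + 1) (g := b * W) (m := b * W * (2 * q + 1)) (by omega)
      (le_of_eq (mul_comm _ _))
    rw [mul_pow, ← pow_mul, ← pow_mul] at g2
    have g4 := Nat.le_of_mul_le_mul_right (g3.trans g2) (by positivity)
    calc 2 ^ n = (2 ^ (b * W)) ^ B := by rw [hnB, pow_mul]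
      _ ≤ ((s' + 1) ^ (2 * q + 1)) ^ B := Nat.pow_le_pow_left g4 B
      _ ≤ _ := by rw [← pow_mul]; exact Nat.pow_le_pow_right (by omega) (by omega)

theorem sep_real (δ : ℝ) (hδ : δ < 1) : ∃ d : ℕ, ∀ m : ℕ, ∃ n ≥ m,
    ∃ F : Finset (Finset (Fin n × Bool)),
      (∀ x : Fin n, ∃ D ∈ F, ∃ b : Bool, (x, b) ∈ D) ∧ (∀ D ∈ F, D.card ≤ d * Nat.log 2 n) ∧
      F.card ≤ n ^ d ∧ (∃ s C, IsRefutation F s C ∧ s + 1 ≤ n ^ d) ∧
      ∀ s C, IsRegular δ F s C → 2 ^ n ≤ (s + 1) ^ d := by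
  obtain ⟨k, hk⟩ := exists_nat_one_div_lt (sub_pos.2 hδ)
  obtain ⟨d, hd⟩ := sep_nat (k + 1) (by omega)
  refine ⟨d, fun m => ?_⟩
  obtain ⟨n, hn, F, h1, h2, h3, h4, h5⟩ := hd m
  refine ⟨n, hn, F, h1, h2, h3, h4, fun s C ⟨hR, w, hw, hreg⟩ => h5 s C w hR.1 hw fun l hl => ?_⟩
  have a3 := hreg l hl
  rw [Fintype.card_fin] at a3
  have a4 : (0 : ℝ) < (k : ℝ) + 1 := by positivity
  have a5 : ((k : ℝ) + 1) * δ + 1 ≤ (k : ℝ) + 1 := by
    rw [div_lt_iff₀ a4] at hk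
    nlinarith
  have a6 : (0 : ℝ) ≤ n := Nat.cast_nonneg n
  have a7 := mul_le_mul_of_nonneg_left a3 a4.le
  have a8 := mul_le_mul_of_nonneg_right a5 a6
  have a9 : ((k : ℝ) + 1) * ((univ.filter fun x : Fin n => 2 ≤ l.count x).card : ℝ) + n ≤
      ((k : ℝ) + 1) * n := by nlinarith
  exact_mod_cast a9

end Pool.Agent.Lib.MP_71630c_lc.Ex
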